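import Pool.Agent.H73.MS.PSF

/-! Counting cylinders. -/

namespace MS

open TopologicalSpace MeasureTheory Filter Topology

theorem h73_cyl_open (m : ℕ) (x : ℤ → ℕ) : IsOpen (cyl m x) := by
  have e : cyl m x = ⋂ i ∈ Set.Icc (-(m : ℤ)) m, (fun y : ℤ → ℕ => y i) ⁻¹' {x i} := by
    ext y
    simp only [cyl, Set.mem_setOf_eq, Set.mem_iInter, Set.mem_Icc, Set.mem_preimage,
      Set.mem_singleton_iff, abs_le]
  rw [e]
  exact (Set.finite_Icc _ _).isOpen_biInter fun i _ =>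
    (isOpen_discrete _).preimage (continuous_apply i)

theorem h73_mem_cyl (m : ℕ) (x : ℤ → ℕ) : x ∈ cyl m x := fun _ _ => rfl

theorem h73_cyl_eq {m : ℕ} {x y : ℤ → ℕ} (h : y ∈ cyl m x) : cyl m y = cyl m x := by
  ext z
  constructor
  · intro hz i hi
    rw [hz i hi, h i hi]
  · intro hz i hi
    rw [hz i hi, h i hi]

theorem h73_cyl_anti {m k : ℕ} (x : ℤ → ℕ) (h : m ≤ k) : cyl k x ⊆ cyl m x := by
  intro y hy i hi
  exact hy i (hi.trans (by exact_mod_cast h))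

theorem h73_Cyl_finite (X : NC) (m : ℕ) : (Cyl X m).Finite := by
  obtain ⟨t, ht⟩ := X.isCompact.elim_finite_subcover (fun x : X => cyl m (x : ℤ → ℕ))
    (fun x => h73_cyl_open m x) (fun x hx => Set.mem_iUnion.2 ⟨⟨x, hx⟩, h73_mem_cyl m x⟩)
  refine (t.finite_toSet.image fun x : X => (X : Set (ℤ → ℕ)) ∩ cyl m (x : ℤ → ℕ)).subset ?_
  rintro C ⟨x, hx, rfl⟩
  obtain ⟨y, hy, hxy⟩ := Set.mem_iUnion₂.1 (ht hx)
  refine ⟨y, hy, ?_⟩
  show (X : Set (ℤ → ℕ)) ∩ cyl m (y : ℤ → ℕ) = (X : Set (ℤ → ℕ)) ∩ cyl m x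
  rw [h73_cyl_eq hxy]

/-- two cylinders of the same depth with a common point are equal -/
theorem h73_Cyl_eq {X : NC} {m : ℕ} {C C' : Set (ℤ → ℕ)} (hC : C ∈ Cyl X m)
    (hC' : C' ∈ Cyl X m) {z : ℤ → ℕ} (hz : z ∈ C) (hz' : z ∈ C') : C = C' := by
  obtain ⟨x, hx, rfl⟩ := hC
  obtain ⟨x', hx', rfl⟩ := hC'
  rw [← h73_cyl_eq hz.2, ← h73_cyl_eq hz'.2]

theorem h73_Cyl_nonempty {X : NC} {m : ℕ} {C : Set (ℤ → ℕ)} (hC : C ∈ Cyl X m) :
    C.Nonempty := by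
  obtain ⟨x, hx, rfl⟩ := hC
  exact ⟨x, hx, h73_mem_cyl m x⟩

theorem h73_Cyl_sub {X : NC} {m : ℕ} {C : Set (ℤ → ℕ)} (hC : C ∈ Cyl X m) :
    C ⊆ (X : Set (ℤ → ℕ)) := by
  obtain ⟨x, hx, rfl⟩ := hC
  exact Set.inter_subset_left

theorem h73_Cyl_eq_of_mem {X : NC} {m : ℕ} {C : Set (ℤ → ℕ)} (hC : C ∈ Cyl X m)
    {x : ℤ → ℕ} (hx : x ∈ C) : C = (X : Set (ℤ → ℕ)) ∩ cyl m x := by
  obtain ⟨y, hy, rfl⟩ := hC
  rw [h73_cyl_eq hx.2]

theorem h73_words_finite (X : NC) (n : ℕ) : (words X n).Finite := by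
  have hc : Continuous (fun x : ℤ → ℕ => fun i : Fin n => x ((i : ℕ) : ℤ)) :=
    continuous_pi fun i => continuous_apply _
  have h1 := X.isCompact.image hc
  have h2 : words X n = (fun x : ℤ → ℕ => fun i : Fin n => x ((i : ℕ) : ℤ)) ''
      (X : Set (ℤ → ℕ)) := by
    ext w
    constructor
    · rintro ⟨x, hx, h⟩
      exact ⟨x, hx, (funext h).symm⟩
    · rintro ⟨x, hx, rfl⟩
      exact ⟨x, hx, fun i => rfl⟩
  rw [h2]
  exact h1.finite_of_discrete

theorem cyl' : CYLStmt := by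
  refine ⟨fun X m => ⟨h73_Cyl_finite X m, ?_, ?_⟩, ?_, ?_⟩
  · obtain ⟨x, hx⟩ := X.nonempty
    have : (Cyl X m).Nonempty := ⟨_, x, hx, rfl⟩
    exact (Set.ncard_pos (h73_Cyl_finite X m)).2 this
  · intro hX
    classical
    have hch : ∀ C : Set (ℤ → ℕ), ∃ x : ℤ → ℕ, C ∈ Cyl X m → x ∈ C := by
      intro C
      by_cases hC : C ∈ Cyl X m
      · obtain ⟨x, hx⟩ := h73_Cyl_nonempty hC
        exact ⟨x, fun _ => hx⟩
      · exact ⟨fun _ => 0, fun h => absurd h hC⟩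
    choose F hF using hch
    refine Set.ncard_le_ncard_of_injOn
      (fun C => fun i : Fin (2 * m + 1) => F C (((i : ℕ) : ℤ) - m)) ?_ ?_ (h73_words_finite X _)
    · intro C hC
      refine ⟨sh (-(m : ℤ)) (F C), h73_sh_mem hX (h73_Cyl_sub hC (hF C hC)) _, fun i => ?_⟩
      simp only [sh]
      congr 1
    · intro C hC C' hC' hEq
      refine h73_Cyl_eq hC hC' (hF C hC) ?_
      rw [h73_Cyl_eq_of_mem hC' (hF C' hC')]
      refine ⟨h73_Cyl_sub hC (hF C hC), fun i hi => ?_⟩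
      rw [abs_le] at hi
      have h1 := congrFun hEq ⟨(i + m).toNat, by omega⟩
      have e : (((i + m).toNat : ℕ) : ℤ) - m = i := by
        rw [Int.toNat_of_nonneg (by omega)]
        ring
      simp only [e] at h1
      exact h1
  · intro X m k
    classical
    have hfin : (Cyl X (m + k)).Finite := h73_Cyl_finite X (m + k)
    have ha : ∀ C : Set (ℤ → ℕ), ∃ A : Set (ℤ → ℕ), C ∈ Cyl X m →
        A ∈ Cyl X (m + k) ∧ A ⊆ C := by
      intro C
      by_cases hC : C ∈ Cyl X m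
      · obtain ⟨x, hx⟩ := h73_Cyl_nonempty hC
        refine ⟨(X : Set (ℤ → ℕ)) ∩ cyl (m + k) x, fun _ =>
          ⟨⟨x, h73_Cyl_sub hC hx, rfl⟩, ?_⟩⟩
        rw [h73_Cyl_eq_of_mem hC hx]
        exact Set.inter_subset_inter_right _ (h73_cyl_anti x (by omega))
      · exact ⟨∅, fun h => absurd h hC⟩
    choose a ha using ha
    have hb : ∀ C : Set (ℤ → ℕ), ∃ A : Set (ℤ → ℕ), C ∈ Cyl X m \ Cyl X (m + k) →
        A ∈ Cyl X (m + k) ∧ A ⊆ C ∧ A ≠ a C := by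
      intro C
      by_cases hC : C ∈ Cyl X m \ Cyl X (m + k)
      · obtain ⟨h1, h2⟩ := ha C hC.1
        have h3 : ¬ C ⊆ a C := by
          intro h
          exact hC.2 (by rw [Set.Subset.antisymm h h2]; exact h1)
        obtain ⟨x, hx, hxa⟩ := Set.not_subset.1 h3
        refine ⟨(X : Set (ℤ → ℕ)) ∩ cyl (m + k) x, fun _ =>
          ⟨⟨x, h73_Cyl_sub hC.1 hx, rfl⟩, ?_, ?_⟩⟩
        · rw [h73_Cyl_eq_of_mem hC.1 hx]
          exact Set.inter_subset_inter_right _ (h73_cyl_anti x (by omega))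
        · intro h
          apply hxa
          rw [← h]
          exact ⟨h73_Cyl_sub hC.1 hx, h73_mem_cyl _ x⟩
      · exact ⟨∅, fun h => absurd h hC⟩
    choose b hb using hb
    have hai : Set.InjOn a (Cyl X m) := by
      intro C hC C' hC' h
      obtain ⟨h1, h2⟩ := ha C hC
      obtain ⟨h1', h2'⟩ := ha C' hC'
      obtain ⟨z, hz⟩ := h73_Cyl_nonempty h1
      exact h73_Cyl_eq hC hC' (h2 hz) (h2' (by rw [← h]; exact hz))
    have hbi : Set.InjOn b (Cyl X m \ Cyl X (m + k)) := by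
      intro C hC C' hC' h
      obtain ⟨h1, h2, _⟩ := hb C hC
      obtain ⟨h1', h2', _⟩ := hb C' hC'
      obtain ⟨z, hz⟩ := h73_Cyl_nonempty h1
      exact h73_Cyl_eq hC.1 hC'.1 (h2 hz) (h2' (by rw [← h]; exact hz))
    have hdisj : Disjoint (a '' Cyl X m) (b '' (Cyl X m \ Cyl X (m + k))) := by
      rw [Set.disjoint_left]
      rintro _ ⟨C, hC, rfl⟩ ⟨C', hC', h⟩
      obtain ⟨h1, h2⟩ := ha C hC
      obtain ⟨h1', h2', h3'⟩ := hb C' hC'
      obtain ⟨z, hz⟩ := h73_Cyl_nonempty h1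
      have : C = C' := h73_Cyl_eq hC hC'.1 (h2 hz) (h2' (by rw [h]; exact hz))
      subst this
      exact h3' h
    have hsub : a '' Cyl X m ∪ b '' (Cyl X m \ Cyl X (m + k)) ⊆ Cyl X (m + k) := by
      rintro _ (⟨C, hC, rfl⟩ | ⟨C, hC, rfl⟩)
      · exact (ha C hC).1
      · exact (hb C hC).1
    have hf1 : (a '' Cyl X m).Finite := hfin.subset (Set.subset_union_left.trans hsub)
    have hf2 : (b '' (Cyl X m \ Cyl X (m + k))).Finite :=
      hfin.subset (Set.subset_union_right.trans hsub)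
    rw [← Set.ncard_image_of_injOn hai, ← Set.ncard_image_of_injOn hbi,
      ← Set.ncard_union_eq hdisj hf1 hf2]
    exact Set.ncard_le_ncard hsub hfin
  · intro X X' f g r m h
    classical
    have hch : ∀ C : Set (ℤ → ℕ), ∃ x : ℤ → ℕ, C ∈ Cyl X' (m + r) → x ∈ C := by
      intro C
      by_cases hC : C ∈ Cyl X' (m + r)
      · obtain ⟨x, hx⟩ := h73_Cyl_nonempty hC
        exact ⟨x, fun _ => hx⟩
      · exact ⟨fun _ => 0, fun h => absurd h hC⟩
    choose F hF using hch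
    have hsub : Cyl X m ⊆ (fun C' => (X : Set (ℤ → ℕ)) ∩ cyl m (g (F C'))) ''
        Cyl X' (m + r) := by
      rintro C ⟨x, hx, rfl⟩
      have hC' : (X' : Set (ℤ → ℕ)) ∩ cyl (m + r) (f x) ∈ Cyl X' (m + r) :=
        ⟨f x, h.maps x hx, rfl⟩
      refine ⟨_, hC', ?_⟩
      have h1 := hF _ hC'
      set y := F ((X' : Set (ℤ → ℕ)) ∩ cyl (m + r) (f x)) with hy
      show (X : Set (ℤ → ℕ)) ∩ cyl m (g y) = (X : Set (ℤ → ℕ)) ∩ cyl m x
      congr 1
      apply h73_cyl_eq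
      intro i hi
      have h2 := h.rad' y h1.1 (f x) (h.maps x hx) i ?_
      · rw [h2, h.left x hx]
      · intro j hj
        apply h1.2 j
        have := abs_sub_abs_le_abs_sub j i
        push_cast
        linarith
    calc (Cyl X m).ncard ≤ ((fun C' => (X : Set (ℤ → ℕ)) ∩ cyl m (g (F C'))) ''
        Cyl X' (m + r)).ncard := Set.ncard_le_ncard hsub ((h73_Cyl_finite X' _).image _)
      _ ≤ (Cyl X' (m + r)).ncard := Set.ncard_image_le (h73_Cyl_finite X' _)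

end MS
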