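import Pool.Agent.H73.MS.CYL

/-! Conjugacies map most cylinders to cylinders and act blockwise. -/

namespace MS

open TopologicalSpace MeasureTheory Filter Topology

theorem deep : DEEPStmt := by
  constructor
  · rintro X X' f g r m C h hrm ⟨x0, hx0, rfl⟩
    constructor
    · intro x hx x' hx' n h1 h2 h3 h4 hag i hi hin
      refine h.rad x hx x' hx' i ?_
      intro j hj
      rw [abs_le] at hj
      by_cases hj0 : j < 0
      · rw [h1.2 j (by rw [abs_le]; constructor <;> omega),
          h2.2 j (by rw [abs_le]; constructor <;> omega)]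
      · by_cases hjn : j < n
        · exact hag j (by omega) hjn
        · have h5 := h3.2 (j - n) (by rw [abs_le]; constructor <;> omega)
          have h6 := h4.2 (j - n) (by rw [abs_le]; constructor <;> omega)
          simp only [sh, sub_add_cancel] at h5 h6
          rw [h5, h6]
    · rintro y hy y' hy' n ⟨x, ⟨hx, hxC⟩, rfl⟩ ⟨x', ⟨hx', hxC'⟩, rfl⟩ ⟨z, ⟨hz, hzC⟩, hzn⟩
        ⟨z', ⟨hz', hzC'⟩, hzn'⟩ hag i hi hin
      have e1 : z = sh n x := by
        have := h.comm' (f x) hy n
        rw [← hzn, h.left z hz, h.left x hx] at this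
        exact this
      have e2 : z' = sh n x' := by
        have := h.comm' (f x') hy' n
        rw [← hzn', h.left z' hz', h.left x' hx'] at this
        exact this
      refine h.rad' _ hy _ hy' i ?_
      intro j hj
      rw [abs_le] at hj
      by_cases hj0 : j < 0
      · refine h.rad x hx x' hx' j ?_
        intro l hl
        rw [abs_le] at hl
        rw [hxC.2 l (by rw [abs_le]; constructor <;> omega),
          hxC'.2 l (by rw [abs_le]; constructor <;> omega)]
      · by_cases hjn : j < n
        · exact hag j (by omega) hjn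
        · refine h.rad x hx x' hx' j ?_
          intro l hl
          rw [abs_le] at hl
          have h5 := hzC.2 (l - n) (by rw [abs_le]; constructor <;> omega)
          have h6 := hzC'.2 (l - n) (by rw [abs_le]; constructor <;> omega)
          rw [e1] at h5
          rw [e2] at h6
          simp only [sh, sub_add_cancel] at h5 h6
          rw [h5, h6]
  · rintro X X' f g r m C h hC ⟨x1, hx1, rfl⟩
    refine ⟨f x1, h.maps x1 hx1, ?_⟩
    have hx1C : x1 ∈ (X : Set (ℤ → ℕ)) ∩ cyl (m + 2 * r) x1 := ⟨hx1, h73_mem_cyl _ _⟩
    have e := h73_Cyl_eq_of_mem hC hx1C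
    ext y
    constructor
    · rintro ⟨x, ⟨hx, hxC⟩, rfl⟩
      refine ⟨h.maps x hx, fun i hi => ?_⟩
      refine h.rad x hx x1 hx1 i ?_
      intro j hj
      apply hxC j
      have := abs_sub_abs_le_abs_sub j i
      push_cast at hi ⊢
      linarith
    · rintro ⟨hy, hyC⟩
      refine ⟨g y, ?_, h.right y hy⟩
      rw [e]
      refine ⟨h.maps' y hy, fun i hi => ?_⟩
      have h2 := h.rad' y hy (f x1) (h.maps x1 hx1) i ?_
      · rw [h2, h.left x1 hx1]
      · intro j hj
        apply hyC j
        have := abs_sub_abs_le_abs_sub j i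
        push_cast
        linarith

end MS
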