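import Pool.Agent.H73.MS.PSI

/-! Finiteness of the sets `PS`. -/

namespace MS

open TopologicalSpace MeasureTheory Filter Topology

theorem h73_sh_continuous (n : ℤ) : Continuous (sh n) := by
  unfold sh
  exact continuous_pi fun i => continuous_apply (i + n)

theorem h73_values_finite (X : NC) (i : ℤ) : ((fun x : ℤ → ℕ => x i) '' (X : Set (ℤ → ℕ))).Finite := by
  have := X.isCompact.image (continuous_apply (A := fun _ : ℤ => ℕ) i)
  exact this.finite_of_discrete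

theorem h73_bound {X : NC} (hX : IsMinSubshift X) : ∃ M : ℕ, ∀ x ∈ X, ∀ i, x i < M := by
  obtain ⟨M, hM⟩ := (h73_values_finite X 0).bddAbove
  refine ⟨M + 1, fun x hx i => ?_⟩
  have h1 : sh i x ∈ X := h73_sh_mem hX hx i
  have h2 : (sh i x) 0 ≤ M := hM ⟨sh i x, h1, rfl⟩
  simp only [sh, zero_add] at h2
  omega

/-- bounded return times -/
theorem h73_return {X : NC} (hX : IsMinSubshift X) {U : Set (ℤ → ℕ)} (hU : IsOpen U)
    (hne : ((X : Set (ℤ → ℕ)) ∩ U).Nonempty) :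
    ∃ B : ℕ, ∀ x ∈ X, ∃ j : ℕ, j < B ∧ sh j x ∈ U := by
  obtain ⟨u, huX, huU⟩ := hne
  have hcov : (X : Set (ℤ → ℕ)) ⊆ ⋃ n : ℤ, (sh n) ⁻¹' U := by
    intro x hx
    have h1 : u ∈ closure {y | ∃ n : ℤ, ∀ i, y i = x (i + n)} := hX.2 x hx huX
    obtain ⟨y, hyU, n, hn⟩ := mem_closure_iff.1 h1 U hU huU
    refine Set.mem_iUnion.2 ⟨n, ?_⟩
    have : y = sh n x := funext hn
    rw [this] at hyU
    exact hyU
  obtain ⟨t, ht⟩ := X.isCompact.elim_finite_subcover (fun n : ℤ => (sh n) ⁻¹' U)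
    (fun n => hU.preimage (h73_sh_continuous n)) hcov
  obtain ⟨K, hK⟩ : ∃ K : ℕ, ∀ n ∈ t, |n| ≤ (K : ℤ) := by
    refine ⟨∑ n ∈ t, n.natAbs, fun n hn => ?_⟩
    have h1 : n.natAbs ≤ ∑ n ∈ t, n.natAbs :=
      Finset.single_le_sum (f := fun n : ℤ => n.natAbs) (fun _ _ => Nat.zero_le _) hn
    rw [Int.abs_eq_natAbs]
    exact_mod_cast h1
  refine ⟨2 * K + 1, fun x hx => ?_⟩
  have h1 := ht (h73_sh_mem hX hx (K : ℤ))
  obtain ⟨n, hn, hnU⟩ := Set.mem_iUnion₂.1 h1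
  have h2 := hK n hn
  rw [abs_le] at h2
  refine ⟨(n + K).toNat, by omega, ?_⟩
  have e : (((n + K).toNat : ℕ) : ℤ) = n + K := Int.toNat_of_nonneg (by omega)
  rw [e, ← h73_sh_sh]
  exact hnU

theorem psf : PSFStmt := by
  intro N X C hX ⟨U, hU, hCU⟩ hne
  obtain ⟨M, hM⟩ := h73_bound hX
  obtain ⟨B, hB⟩ := h73_return hX hU (by rw [← hCU]; exact hne)
  have hB' : ∀ x ∈ X, ∃ j : ℕ, j < B ∧ sh j x ∈ C := by
    intro x hx
    obtain ⟨j, hj, hjU⟩ := hB x hx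
    refine ⟨j, hj, ?_⟩
    have : sh j x ∈ (X : Set (ℤ → ℕ)) ∩ U := ⟨h73_sh_mem hX hx j, hjU⟩
    rw [← hCU] at this
    exact this.2
  -- every point sees two visits to `C`
  have hwin : ∀ x ∈ X, ∃ (z : ℤ → ℕ) (n a : ℕ), z ∈ X ∧ z ∈ C ∧ sh n z ∈ C ∧ n ≤ 2 * B ∧ a < n ∧
      x = sh a z := by
    intro x hx
    obtain ⟨j, hj, hjC⟩ := hB' _ (h73_sh_mem hX hx (-(B : ℤ)))
    obtain ⟨l, hl, hlC⟩ := hB' _ (h73_sh_mem hX hx 1)
    rw [h73_sh_sh] at hjC hlC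
    refine ⟨sh ((j : ℤ) + -(B : ℤ)) x, l + 1 + B - j, B - j, h73_sh_mem hX hx _, hjC, ?_,
      by omega, by omega, ?_⟩
    · rw [h73_sh_sh]
      have e : ((l + 1 + B - j : ℕ) : ℤ) + ((j : ℤ) + -(B : ℤ)) = (l : ℤ) + 1 := by
        rw [Nat.cast_sub (by omega)]
        push_cast
        ring
      rw [e]
      exact hlC
    · rw [h73_sh_sh]
      have e : ((B - j : ℕ) : ℤ) + ((j : ℤ) + -(B : ℤ)) = 0 := by
        rw [Nat.cast_sub (by omega)]
        ring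
      rw [e, h73_sh_zero]
  classical
  -- the finite code of a member of `PS`
  let P : ((ℤ → ℕ) → (ℤ → ℕ)) →
      Set (Fin (2 * B + 1) × (Fin (2 * B) → Fin M) × (Fin (2 * B) → Fin N)) := fun f =>
    {p | ∃ z ∈ X, z ∈ C ∧ sh ((p.1 : ℕ) : ℤ) z ∈ C ∧
      (∀ i : Fin (2 * B), (i : ℕ) < (p.1 : ℕ) → z ((i : ℕ) : ℤ) = (p.2.1 i : ℕ)) ∧
      (∀ i : Fin (2 * B), (i : ℕ) < (p.1 : ℕ) → f z ((i : ℕ) : ℤ) = (p.2.2 i : ℕ))}
  have hch : ∀ Y : NC, ∃ f : (ℤ → ℕ) → (ℤ → ℕ), Y ∈ PS N X C →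
      (∀ y ∈ Y, ∀ i, y i < N) ∧ ∃ g r, IsConj X Y f g r ∧ Loc f X C := by
    intro Y
    by_cases hY : Y ∈ PS N X C
    · obtain ⟨h1, f, g, r, h2, h3, _⟩ := hY
      exact ⟨f, fun _ => ⟨h1, g, r, h2, h3⟩⟩
    · exact ⟨id, fun h => absurd h hY⟩
  choose F hF using hch
  have hinj : Set.InjOn (fun Y => P (F Y)) (PS N X C) := by
    intro Y hY Y' hY' hEq
    obtain ⟨hN1, g, r, hc, hl⟩ := hF Y hY
    obtain ⟨hN2, g', r', hc', hl'⟩ := hF Y' hY'
    have key : ∀ x ∈ X, F Y x 0 = F Y' x 0 := by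
      intro x hx
      obtain ⟨z, n, a, hz, hzC, hnC, hn, ha, hxz⟩ := hwin x hx
      let p : Fin (2 * B + 1) × (Fin (2 * B) → Fin M) × (Fin (2 * B) → Fin N) :=
        (⟨n, by omega⟩, fun i => ⟨z ((i : ℕ) : ℤ), hM z hz _⟩,
          fun i => ⟨F Y z ((i : ℕ) : ℤ), hN1 _ (hc.maps z hz) _⟩)
      have hp : p ∈ P (F Y) := ⟨z, hz, hzC, hnC, fun i _ => rfl, fun i _ => rfl⟩
      have hp' : p ∈ P (F Y') := by
        have : P (F Y) = P (F Y') := hEq
        rw [← this]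
        exact hp
      obtain ⟨z', hz', hzC', hnC', h1, h2⟩ := hp'
      have h3 : ∀ i : ℤ, 0 ≤ i → i < n → z' i = z i := by
        intro i hi hin
        have := h1 ⟨i.toNat, by omega⟩ (by show i.toNat < n; omega)
        have e : ((i.toNat : ℕ) : ℤ) = i := Int.toNat_of_nonneg hi
        simp only [e] at this
        rw [this]
        show z ((i.toNat : ℕ) : ℤ) = z i
        rw [e]
      have h4 := hl' z' hz' z hz n hzC' hzC hnC' hnC h3 (a : ℤ) (by omega) (by omega)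
      have h5 := h2 ⟨a, by omega⟩ (by show a < n; omega)
      have h6 : F Y' z' (a : ℤ) = F Y z (a : ℤ) := h5
      have h7 : F Y x 0 = F Y z (a : ℤ) := by
        rw [hxz, hc.comm z hz]
        simp [sh]
      have h8 : F Y' x 0 = F Y' z (a : ℤ) := by
        rw [hxz, hc'.comm z hz]
        simp [sh]
      rw [h7, h8, ← h6, h4]
    have key2 : ∀ x ∈ X, F Y x = F Y' x := by
      intro x hx
      funext i
      have h1 := key _ (h73_sh_mem hX hx i)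
      rw [hc.comm x hx, hc'.comm x hx] at h1
      simpa [sh] using h1
    apply SetLike.coe_injective
    show (Y : Set (ℤ → ℕ)) = (Y' : Set (ℤ → ℕ))
    rw [← h73_image_eq hc, ← h73_image_eq hc']
    exact Set.image_congr key2
  exact Set.Finite.of_injOn (fun Y _ => Set.mem_univ _) hinj (Set.toFinite _)

end MS
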