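import Pool.Agent.H27.MS.Stmts

/-! Invariance and nontriviality of the sets `PS`. -/

namespace MS

open TopologicalSpace MeasureTheory Filter Topology

theorem h73_sh_sh (a b : ℤ) (x : ℤ → ℕ) : sh a (sh b x) = sh (a + b) x := by
  funext i
  simp only [sh]
  congr 1
  ring

theorem h73_sh_zero (x : ℤ → ℕ) : sh 0 x = x := by
  funext i
  simp [sh]

theorem h73_sh_mem {X : NC} (hX : IsMinSubshift X) {x : ℤ → ℕ} (hx : x ∈ X) (n : ℤ) :
    sh n x ∈ X := by
  have h1 : ∀ x ∈ X, sh 1 x ∈ X := by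
    intro x hx
    have : shift x ∈ shift '' (X : Set (ℤ → ℕ)) := ⟨x, hx, rfl⟩
    rw [hX.1] at this
    exact this
  have h2 : ∀ x ∈ X, sh (-1) x ∈ X := by
    intro x hx
    have : x ∈ shift '' (X : Set (ℤ → ℕ)) := by
      rw [hX.1]; exact hx
    obtain ⟨y, hy, rfl⟩ := this
    have e : sh (-1) (shift y) = y := by
      funext i
      simp [sh, shift]
    rw [e]
    exact hy
  induction n using Int.induction_on with
  | zero => rw [h73_sh_zero]; exact hx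
  | succ n ih =>
    have := h1 _ ih
    rw [h73_sh_sh] at this
    rw [add_comm]
    exact this
  | pred n ih =>
    have := h2 _ ih
    rw [h73_sh_sh] at this
    have e : (-1 : ℤ) + -(n : ℤ) = -(n : ℤ) - 1 := by ring
    rw [e] at this
    exact this

theorem h73_image_eq {X Y : NC} {f g : (ℤ → ℕ) → (ℤ → ℕ)} {r : ℕ} (h : IsConj X Y f g r) :
    f '' (X : Set (ℤ → ℕ)) = Y := by
  ext y
  constructor
  · rintro ⟨x, hx, rfl⟩
    exact h.maps x hx
  · intro hy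
    exact ⟨g y, h.maps' y hy, h.right y hy⟩

theorem h73_symm {X Y : NC} {f g : (ℤ → ℕ) → (ℤ → ℕ)} {r : ℕ} (h : IsConj X Y f g r) :
    IsConj Y X g f r :=
  ⟨h.maps', h.maps, h.right, h.left, h.comm', h.comm, h.rad', h.rad⟩

theorem h73_comp {X Y Z : NC} {f g f' g' : (ℤ → ℕ) → (ℤ → ℕ)} {r r' : ℕ}
    (h : IsConj X Y f g r) (h' : IsConj Y Z f' g' r') :
    IsConj X Z (f' ∘ f) (g ∘ g') (r + r') := by
  refine ⟨fun x hx => h'.maps _ (h.maps x hx), fun y hy => h.maps' _ (h'.maps' y hy),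
    ?_, ?_, ?_, ?_, ?_, ?_⟩
  · intro x hx
    simp only [Function.comp]
    rw [h'.left _ (h.maps x hx), h.left x hx]
  · intro y hy
    simp only [Function.comp]
    rw [h.right _ (h'.maps' y hy), h'.right y hy]
  · intro x hx n
    simp only [Function.comp]
    rw [h.comm x hx, h'.comm _ (h.maps x hx)]
  · intro y hy n
    simp only [Function.comp]
    rw [h'.comm' y hy, h.comm' _ (h'.maps' y hy)]
  · intro x hx x' hx' i hi
    simp only [Function.comp]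
    refine h'.rad _ (h.maps x hx) _ (h.maps x' hx') i ?_
    intro j hj
    refine h.rad x hx x' hx' j ?_
    intro l hl
    apply hi
    have := abs_sub_le l j i
    push_cast
    linarith
  · intro y hy y' hy' i hi
    simp only [Function.comp]
    refine h.rad' _ (h'.maps' y hy) _ (h'.maps' y' hy') i ?_
    intro j hj
    refine h'.rad' y hy y' hy' j ?_
    intro l hl
    apply hi
    have := abs_sub_le l j i
    push_cast
    linarith

theorem h73_PS_sub {N : ℕ} {X X' : NC} {f g : (ℤ → ℕ) → (ℤ → ℕ)} {r : ℕ} {C : Set (ℤ → ℕ)}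
    (h : IsConj X X' f g r) (hf : Loc f X C)
    (hg : Loc g X' (f '' ((X : Set (ℤ → ℕ)) ∩ C))) :
    PS N X C ⊆ PS N X' (f '' ((X : Set (ℤ → ℕ)) ∩ C)) := by
  rintro Y ⟨hYN, u, v, s, huv, hu, hv⟩
  have key : ∀ y ∈ f '' ((X : Set (ℤ → ℕ)) ∩ C), g y ∈ X ∧ g y ∈ C := by
    rintro y ⟨x, ⟨hx, hxC⟩, rfl⟩
    rw [h.left x hx]
    exact ⟨hx, hxC⟩
  have e : (u ∘ g) '' ((X' : Set (ℤ → ℕ)) ∩ f '' ((X : Set (ℤ → ℕ)) ∩ C)) =
      u '' ((X : Set (ℤ → ℕ)) ∩ C) := by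
    ext z
    constructor
    · rintro ⟨y, ⟨hy, hyC⟩, rfl⟩
      exact ⟨g y, key y hyC, rfl⟩
    · rintro ⟨x, ⟨hx, hxC⟩, rfl⟩
      refine ⟨f x, ⟨h.maps x hx, x, ⟨hx, hxC⟩, rfl⟩, ?_⟩
      simp only [Function.comp]
      rw [h.left x hx]
  refine ⟨hYN, u ∘ g, f ∘ v, r + s, h73_comp (h73_symm h) huv, ?_, ?_⟩
  · intro y hy y' hy' n hyC hyC' hn hn' hag i hi hin
    have h1 := hg y hy y' hy' n hyC hyC' hn hn' hag
    refine hu (g y) (h.maps' y hy) (g y') (h.maps' y' hy') n (key y hyC).2 (key y' hyC').2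
      ?_ ?_ h1 i hi hin
    · rw [← h.comm' y hy]
      exact (key _ hn).2
    · rw [← h.comm' y' hy']
      exact (key _ hn').2
  · rw [e]
    have key2 : ∀ y ∈ u '' ((X : Set (ℤ → ℕ)) ∩ C), v y ∈ X ∧ v y ∈ C := by
      rintro y ⟨x, ⟨hx, hxC⟩, rfl⟩
      rw [huv.left x hx]
      exact ⟨hx, hxC⟩
    intro y hy y' hy' n hyC hyC' hn hn' hag i hi hin
    have h1 := hv y hy y' hy' n hyC hyC' hn hn' hag
    refine hf (v y) (huv.maps' y hy) (v y') (huv.maps' y' hy') n (key2 y hyC).2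
      (key2 y' hyC').2 ?_ ?_ h1 i hi hin
    · rw [← huv.comm' y hy]
      exact (key2 _ hn).2
    · rw [← huv.comm' y' hy']
      exact (key2 _ hn').2

theorem psi : PSIStmt := by
  constructor
  · intro N X C hX hN
    refine ⟨hN, id, id, 0, ?_, ?_, ?_⟩
    · refine ⟨fun x hx => hx, fun x hx => hx, fun x hx => rfl, fun x hx => rfl,
        fun x hx n => rfl, fun x hx n => rfl, ?_, ?_⟩
      · intro x hx x' hx' i hi
        exact hi i (by simp)
      · intro x hx x' hx' i hi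
        exact hi i (by simp)
    · intro x hx x' hx' n _ _ _ _ h
      exact h
    · intro x hx x' hx' n _ _ _ _ h
      exact h
  · intro N X X' f g r C hX h hf hg
    apply Set.Subset.antisymm (h73_PS_sub h hf hg)
    have e : g '' ((X' : Set (ℤ → ℕ)) ∩ f '' ((X : Set (ℤ → ℕ)) ∩ C)) =
        (X : Set (ℤ → ℕ)) ∩ C := by
      ext x
      constructor
      · rintro ⟨y, ⟨hy, z, ⟨hz, hzC⟩, rfl⟩, rfl⟩
        rw [h.left z hz]
        exact ⟨hz, hzC⟩
      · rintro ⟨hx, hxC⟩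
        exact ⟨f x, ⟨h.maps x hx, x, ⟨hx, hxC⟩, rfl⟩, h.left x hx⟩
    have hf' : Loc f X (g '' ((X' : Set (ℤ → ℕ)) ∩ f '' ((X : Set (ℤ → ℕ)) ∩ C))) := by
      rw [e]
      intro x hx x' hx' n h1 h2 h3 h4
      exact hf x hx x' hx' n h1.2 h2.2 h3.2 h4.2
    refine (h73_PS_sub (h73_symm h) hg hf').trans ?_
    rw [e]
    rintro Y ⟨hYN, u, v, s, huv, hu, hv⟩
    refine ⟨hYN, u, v, s, huv, ?_, ?_⟩
    · intro x hx x' hx' n h1 h2 h3 h4
      exact hu x hx x' hx' n ⟨hx, h1⟩ ⟨hx', h2⟩ ⟨h73_sh_mem hX hx n, h3⟩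
        ⟨h73_sh_mem hX hx' n, h4⟩
    · have e2 : (X : Set (ℤ → ℕ)) ∩ ((X : Set (ℤ → ℕ)) ∩ C) = (X : Set (ℤ → ℕ)) ∩ C := by
        rw [← Set.inter_assoc, Set.inter_self]
      rw [e2] at hv
      exact hv

end MS
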