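import Pool.Agent.H73.MS.CYL

/-! Elementary properties of the Reiter functions. -/

namespace MS

open TopologicalSpace MeasureTheory Filter Topology

theorem h73_unif_hasSum {S : Set NC} (hf : S.Finite) (hne : S.Nonempty) :
    HasSum (unif S) 1 := by
  classical
  have h1 : HasSum (unif S) (∑ Y ∈ hf.toFinset, unif S Y) := by
    apply hasSum_sum_of_ne_finset_zero
    intro Y hY
    have : Y ∉ S := fun h => hY (hf.mem_toFinset.2 h)
    simp [unif, this]
  have h2 : ∑ Y ∈ hf.toFinset, unif S Y = 1 := by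
    have h3 : ∀ Y ∈ hf.toFinset, unif S Y = ((S.ncard : ℝ))⁻¹ := by
      intro Y hY
      have : Y ∈ S := hf.mem_toFinset.1 hY
      simp [unif, this]
    rw [Finset.sum_congr rfl h3, Finset.sum_const, ← Set.ncard_eq_toFinset_card S hf,
      nsmul_eq_mul]
    have : 0 < S.ncard := (Set.ncard_pos hf).2 hne
    have h4 : (S.ncard : ℝ) ≠ 0 := by positivity
    exact mul_inv_cancel₀ h4
  rw [h2] at h1
  exact h1

theorem h73_unif_nonneg (S : Set NC) (Y : NC) : 0 ≤ unif S Y := by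
  unfold unif
  split_ifs
  · positivity
  · exact le_rfl

theorem h73_lev_eq (N m : ℕ) (X Y : NC) : lev N m X Y =
    ((Cyl X m).ncard : ℝ)⁻¹ * ∑ C ∈ (h73_Cyl_finite X m).toFinset, unif (PS N X C) Y := by
  unfold lev
  congr 1
  exact finsum_mem_eq_finite_toFinset_sum _ (h73_Cyl_finite X m)

theorem h73_lev_nonneg (N m : ℕ) (X Y : NC) : 0 ≤ lev N m X Y := by
  rw [h73_lev_eq]
  exact mul_nonneg (by positivity) (Finset.sum_nonneg fun C _ => h73_unif_nonneg _ _)

theorem h73_lev_hasSum (N m : ℕ) (X : NC) (hX : IsMinSubshift X)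
    (hN : ∀ x ∈ X, ∀ i, x i < N) : HasSum (lev N m X) 1 := by
  have h1 : ∀ C ∈ (h73_Cyl_finite X m).toFinset, HasSum (fun Y => unif (PS N X C) Y) 1 := by
    intro C hC
    have hC' : C ∈ Cyl X m := (h73_Cyl_finite X m).mem_toFinset.1 hC
    apply h73_unif_hasSum
    · obtain ⟨x, hx, rfl⟩ := hC'
      refine psf N X _ hX ⟨cyl m x, h73_cyl_open m x, ?_⟩ ?_
      · rw [← Set.inter_assoc, Set.inter_self]
      · exact ⟨x, hx, hx, h73_mem_cyl m x⟩
    · exact ⟨X, psi.1 N X C hX hN⟩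
  have h2 := hasSum_sum h1
  rw [Finset.sum_const, nsmul_eq_mul, mul_one] at h2
  have h3 := h2.mul_left (((Cyl X m).ncard : ℝ)⁻¹)
  have h4 : ((Cyl X m).ncard : ℝ)⁻¹ * ((h73_Cyl_finite X m).toFinset.card : ℝ) = 1 := by
    rw [← Set.ncard_eq_toFinset_card _ (h73_Cyl_finite X m)]
    have : 1 ≤ (Cyl X m).ncard := (cyl'.1 X m).2.1
    have h5 : ((Cyl X m).ncard : ℝ) ≠ 0 := by
      have : (1 : ℝ) ≤ ((Cyl X m).ncard : ℝ) := by exact_mod_cast this
      positivity
    exact inv_mul_cancel₀ h5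
  rw [h4] at h3
  have h5 : (fun Y => ((Cyl X m).ncard : ℝ)⁻¹ *
      ∑ C ∈ (h73_Cyl_finite X m).toFinset, unif (PS N X C) Y) = lev N m X := by
    funext Y
    rw [h73_lev_eq]
  rw [h5] at h3
  exact h3

theorem rei : REIStmt := by
  intro N X hN hX hXN
  refine ⟨?_, ?_, ?_⟩
  · intro Y
    unfold Rei
    exact mul_nonneg (by positivity) (Finset.sum_nonneg fun m _ => h73_lev_nonneg _ _ _ _)
  · intro Y hY
    unfold Rei at hY
    have h1 := right_ne_zero_of_mul hY
    obtain ⟨m, -, hm⟩ := Finset.exists_ne_zero_of_sum_ne_zero h1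
    rw [h73_lev_eq] at hm
    have h2 := right_ne_zero_of_mul hm
    obtain ⟨C, -, hC⟩ := Finset.exists_ne_zero_of_sum_ne_zero h2
    have h3 : Y ∈ PS N X C := by
      by_contra h
      exact hC (by simp [unif, h])
    obtain ⟨-, f, g, r, h4, -⟩ := h3
    exact ⟨f, g, r, h4⟩
  · have h1 : ∀ m ∈ Finset.range N, HasSum (fun Y => lev N (N + m) X Y) 1 := fun m _ =>
      h73_lev_hasSum N (N + m) X hX hXN
    have h2 := (hasSum_sum h1).mul_left ((N : ℝ)⁻¹)
    rw [Finset.sum_const, Finset.card_range, nsmul_eq_mul, mul_one] at h2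
    have h3 : (N : ℝ)⁻¹ * (N : ℝ) = 1 := by
      apply inv_mul_cancel₀
      have : (1 : ℝ) ≤ (N : ℝ) := by exact_mod_cast hN
      positivity
    rw [h3] at h2
    exact h2

end MS
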